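import Pool.Agent.P.MP_dcacc7_lc.Sound

open Pool.Agent.P.MP_dcacc7_lc in
theorem Pool.Agent.Results.MP_dcacc7_lc.LetterSharing.result :
    ∀ a b : Fm, Fm.imp a b ∈ Acceptable → ∃ n : ℕ, n ∈ a.letters ∧ n ∈ b.letters :=
  Pool.Agent.P.MP_dcacc7_lc.letter_sharing
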