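import Pool.Agent.P.MP_dcacc7_lc.Power

set_option autoImplicit false

namespace Pool.Agent.Results.MP_dcacc7_lc.NoFiniteMatrix

open Pool.Agent.P.MP_dcacc7_lc

theorem result : ∀ (M : Type) [Finite M] (D : Set M) (ng : M → M) (cj dj im : M → M → M)
    (V : Set Fm),
    V = {a | ∀ e : Fm → M, (∀ x, e (.neg x) = ng (e x)) →
      (∀ x y, e (.conj x y) = cj (e x) (e y)) → (∀ x y, e (.disj x y) = dj (e x) (e y)) →
      (∀ x y, e (.imp x y) = im (e x) (e y)) → e a ∈ D} →
    Acceptable ⊆ V → ∃ a ∈ V, (∀ w : ℕ → Prop, a.Holds w) ∧ a ∉ Acceptable := by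
  intro M _ D ng cj dj im V hV hA
  subst hV
  obtain ⟨l, h1, h2, h3, h4⟩ := Pw.exists_dug M
  refine ⟨Pw.dug id l, fun e e1 e2 e3 e4 => ?_, fun w => Pw.holds_dug w l h2 h3,
    Pw.dug_not_acceptable l h1⟩
  obtain ⟨p, hp, hc⟩ := h4 fun n => e (.letter n)
  rw [Pw.eval_dug dj im e e3 e4 id (fun n => if n = p.2 then p.1 else n) (fun n => by
    by_cases hn : n = p.2
    · simp only [hn, id, if_true]
      exact hc.symm
    · simp only [hn, id, if_false])]
  exact hA (Pw.acceptable_of_has (Pw.has_dug _ l hp (by simp))) e e1 e2 e3 e4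

/-- The question as posed: the one-element matrix with its element designated. -/
theorem posed : ∃ a : Fm, (∀ w : ℕ → Prop, a.Holds w) ∧ a ∉ Acceptable := by
  obtain ⟨a, -, h⟩ := result Unit Set.univ id (fun _ _ => ()) (fun _ _ => ()) (fun _ _ => ()) _ rfl
    fun _ _ _ _ _ _ _ => trivial
  exact ⟨a, h⟩

end Pool.Agent.Results.MP_dcacc7_lc.NoFiniteMatrix
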